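import Pool.Agent.AT.CV.Pair

/-!
# Project AT, complex volume: the value of a block modulo `π²`
-/

namespace Pool.Agent.AT.CV

open Complex Pool.Agent.H63.VC3 Pool.Agent.H63.VC5 Pool.Agent.H63.VC7 Pool.Agent.S3 Pool.Agent.S3.G

private theorem base_pos : 0 < (sX (1 / 4) 0).im ∧ 0 < (sY (1 / 4) 0).im := by
  have hd : ‖(1 / 4 : ℂ) - 1 / 4‖ ≤ 6 / 1000 := by
    rw [sub_self, norm_zero]
    norm_num
  obtain ⟨-, -, -, ap⟩ := sX_log (1 / 4) 0 hd (by norm_num) (by norm_num)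
  obtain ⟨-, -, -, bp⟩ := sY_log (1 / 4) 0 hd (by norm_num) (by norm_num)
  exact ⟨ap, bp⟩

/-- The two tetrahedra at an even place. -/
theorem pair_even {y u : ℂ} (h : Dm y u) (n m : Fin 3 → ℤ) (hn : n 0 + n 1 + n 2 = -1)
    (hm : m 0 + m 1 + m 2 = -1) (b : Bool) :
    Cg (Hyp.tetR (sX y u) (fun c => LX y u c + n c * (Real.pi * I)) (if b then 0 else 2) 1 +
        Hyp.tetR (sY y u) (fun c => LY y u c + m c * (Real.pi * I)) (if b then 0 else 1) 2)
      (EP y u n m + (Real.pi : ℂ) ^ 2 / 2 * (if b then (m 0 : ℂ) else 1 + n 1 + m 1)) := by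
  obtain ⟨x1, x2, x3, x4⟩ := tetR_cases (sX (1 / 4) 0) base_pos.1 n hn _ (fun c => rfl)
  obtain ⟨y1, y2, y3, y4⟩ := tetR_cases (sY (1 / 4) 0) base_pos.2 m hm _ (fun c => rfl)
  cases b
  · simp only [Bool.false_eq_true, if_false]
    refine pair h n m hn hm (by decide) (by decide) ((x4.add y2).trans (Cg.of_eq ?_))
    ring
  · simp only [if_true]
    refine pair h n m hn hm (by decide) (by decide) ((x1.add y3).trans (Cg.of_eq ?_))
    ring

/-- The two tetrahedra at an odd place. -/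
theorem pair_odd {y u : ℂ} (h : Dm y u) (n m : Fin 3 → ℤ) (hn : n 0 + n 1 + n 2 = -1)
    (hm : m 0 + m 1 + m 2 = -1) (b : Bool) :
    Cg (Hyp.tetR (sX y u) (fun c => LX y u c + n c * (Real.pi * I)) (if b then 0 else 1) 2 +
        Hyp.tetR (sY y u) (fun c => LY y u c + m c * (Real.pi * I)) (if b then 0 else 2) 1)
      (EP y u n m + (Real.pi : ℂ) ^ 2 / 2 * (if b then (n 0 : ℂ) else 1 + n 1 + m 1)) := by
  obtain ⟨x1, x2, x3, x4⟩ := tetR_cases (sX (1 / 4) 0) base_pos.1 n hn _ (fun c => rfl)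
  obtain ⟨y1, y2, y3, y4⟩ := tetR_cases (sY (1 / 4) 0) base_pos.2 m hm _ (fun c => rfl)
  cases b
  · simp only [Bool.false_eq_true, if_false]
    refine pair h n m hn hm (by decide) (by decide) ((x2.add y4).trans (Cg.of_eq ?_))
    ring
  · simp only [if_true]
    refine pair h n m hn hm (by decide) (by decide) ((x3.add y1).trans (Cg.of_eq ?_))
    ring

/-- The domain of a block. -/
structure Db (y v w : ℂ) : Prop where
  hy : |y.re| < 1 / 2
  hv : |v.re| < 1 / 2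
  hw : |w.re| < 1 / 2
  d1 : fdo (y - v)
  d2 : fdo (y + v)
  d3 : fdo (y - w)
  d4 : fdo (y + w)

theorem Db.of_blk {y v w : ℂ} (h : G.Blk y v w) : Db y v w :=
  ⟨h.hy, h.hv, h.hw, h.d1, h.d2, h.d3, h.d4⟩

theorem Db.dm {y v w : ℂ} (h : Db y v w) (k : Fin 4) : Dm y (su v w k) := by
  fin_cases k
  · exact ⟨h.hy, h.hv, h.d2⟩
  · refine ⟨h.hy, ?_, ?_⟩
    · show |(-w).re| < 1 / 2
      rw [neg_re, abs_neg]
      exact h.hw
    · show fdo (y + -w)
      rw [← sub_eq_add_neg]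
      exact h.d3
  · exact ⟨h.hy, h.hw, h.d4⟩
  · refine ⟨h.hy, ?_, ?_⟩
    · show |(-v).re| < 1 / 2
      rw [neg_re, abs_neg]
      exact h.hv
    · show fdo (y + -v)
      rw [← sub_eq_add_neg]
      exact h.d1

/-- The eight values of a block. -/
theorem block_vals {y v w : ℂ} (h : Db y v w) (ms mt al be : ℤ) (f f' : Bool) :
    Cg (Hyp.blockR (shx y v w) (shy y v w) (FX y v w ms mt al be) (FY y v w ms mt al be) f f')
      (EP y v (nX ms mt al be 0) (nY ms mt al be 0) +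
       EP y (-w) (nX ms mt al be 1) (nY ms mt al be 1) +
       EP y w (nX ms mt al be 2) (nY ms mt al be 2) +
       EP y (-v) (nX ms mt al be 3) (nY ms mt al be 3) +
       (Real.pi : ℂ) ^ 2 / 2 * (2 + 2 * ms - 2 * mt) +
       bt1 f' * ((Real.pi : ℂ) ^ 2 / 2 * (2 * be + mt - 1)) +
       bt1 f * ((Real.pi : ℂ) ^ 2 / 2 * (-2 * al - ms - 3))) := by
  have n2 : (-1 : Fin 3) = 2 := rfl
  have n1 : (-2 : Fin 3) = 1 := rfl
  have c0 : ((0 : Fin 4) < 2) = True := by decide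
  have c1 : ((1 : Fin 4) < 2) = True := by decide
  have c2 : ((2 : Fin 4) < 2) = False := by decide
  have c3 : ((3 : Fin 4) < 2) = False := by decide
  have e0 : Hyp.eo4 0 = 1 := rfl
  have e1 : Hyp.eo4 1 = 2 := rfl
  have e2 : Hyp.eo4 2 = 1 := rfl
  have e3 : Hyp.eo4 3 = 2 := rfl
  unfold Hyp.blockR
  rw [Fin.sum_univ_four]
  simp only [e0, e1, e2, e3, n1, n2, c0, c1, c2, c3, if_true, if_false]
  have k0 := pair_even (h.dm 0) _ _ (BlockRC_nX ms mt al be 0) (BlockRC_nY ms mt al be 0) f'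
  have k1 := pair_odd (h.dm 1) _ _ (BlockRC_nX ms mt al be 1) (BlockRC_nY ms mt al be 1) f'
  have k2 := pair_even (h.dm 2) _ _ (BlockRC_nX ms mt al be 2) (BlockRC_nY ms mt al be 2) f
  have k3 := pair_odd (h.dm 3) _ _ (BlockRC_nX ms mt al be 3) (BlockRC_nY ms mt al be 3) f
  refine (((k0.add k1).add k2).add k3).trans (Cg.of_eq ?_)
  have s0 : su v w 0 = v := rfl
  have s1 : su v w 1 = -w := rfl
  have s2 : su v w 2 = w := rfl
  have s3 : su v w 3 = -v := rfl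
  rw [s0, s1, s2, s3]
  cases f <;> cases f' <;> simp [nX, nY, bt1] <;> ring

/-- **The value of a block.** -/
theorem block_R {y v w : ℂ} (h : Db y v w)
    (ey : 4 * hh (y + 1 / 2) = he (y - v) + he (y + v) + he (y - w) + he (y + w))
    (ms mt al be : ℤ) (f f' : Bool) :
    Cg (Hyp.blockR (shx y v w) (shy y v w) (FX y v w ms mt al be) (FY y v w ms mt al be) f f')
      (2 * Real.pi * I * (4 * ff (y + 1 / 2) - fe (y - v) - fe (y + v) - fe (y - w) - fe (y + w)) -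
        (2 * Real.pi * I * v + ms * (Real.pi * I)) / 2 * (he (y - v) - he (y + v)) -
        (2 * Real.pi * I * w + mt * (Real.pi * I)) / 2 * (he (y - w) - he (y + w)) -
        (Real.pi : ℂ) ^ 2 * ((2 * al + mt + 1) * v - (2 * be + ms + 1) * w) +
        (Real.pi : ℂ) ^ 2 / 2 * (ms - mt + bt1 f * (1 + ms) + bt1 f' * (1 + mt))) := by
  refine (block_vals h ms mt al be f f').trans ?_
  unfold EP
  rw [(BlockRC_refl v).1, (BlockRC_refl v).2, (BlockRC_refl w).1, (BlockRC_refl w).2]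
  have I2 : (I : ℂ) ^ 2 = -1 := I_sq
  rw [← sub_eq_add_neg, ← sub_eq_add_neg]
  refine ⟨bt1 f' * (be - 1) - bt1 f * (al + ms + 2), ?_⟩
  have a0 : nX ms mt al be 0 0 = al - ms + mt := rfl
  have a1 : nX ms mt al be 0 1 = -al + ms - mt - 1 := rfl
  have a2 : nX ms mt al be 1 0 = be + ms := rfl
  have a3 : nX ms mt al be 1 1 = -be - 1 := rfl
  have a4 : nX ms mt al be 2 0 = -be - mt - 1 := rfl
  have a5 : nX ms mt al be 2 1 = be + ms := rfl
  have a6 : nX ms mt al be 3 0 = -al - 1 := rfl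
  have a7 : nX ms mt al be 3 1 = al + ms := rfl
  have b0 : nY ms mt al be 0 0 = -al - mt - 1 := rfl
  have b1 : nY ms mt al be 0 1 = 0 := rfl
  have b2 : nY ms mt al be 1 0 = -be - ms + mt - 1 := rfl
  have b3 : nY ms mt al be 1 1 = -mt := rfl
  have b4 : nY ms mt al be 2 0 = be := rfl
  have b5 : nY ms mt al be 2 1 = 0 := rfl
  have b6 : nY ms mt al be 3 0 = al + ms := rfl
  have b7 : nY ms mt al be 3 1 = -ms := rfl
  rw [a0, a1, a2, a3, a4, a5, a6, a7, b0, b1, b2, b3, b4, b5, b6, b7]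
  push_cast
  linear_combination (Real.pi * I * (ms / 2 - y)) * ey +
    ((Real.pi : ℂ) ^ 2 * (((1 / 4 - v / 2) + ((-al + ms - mt - 1 : ℂ) * (1 / 2 - v) - (al - ms + mt : ℂ) * (1 / 2 - y) + (0 : ℂ) * (1 / 2 - v) - (-al - mt - 1 : ℂ) * (y + v)) / 2) +
      ((1 / 4 - (-w) / 2) + ((-be - 1 : ℂ) * (1 / 2 - (-w)) - (be + ms : ℂ) * (1 / 2 - y) + (-mt : ℂ) * (1 / 2 - (-w)) - (-be - ms + mt - 1 : ℂ) * (y + (-w))) / 2) +
      ((1 / 4 - w / 2) + ((be + ms : ℂ) * (1 / 2 - w) - (-be - mt - 1 : ℂ) * (1 / 2 - y) + (0 : ℂ) * (1 / 2 - w) - (be : ℂ) * (y + w)) / 2) +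
      ((1 / 4 - (-v) / 2) + ((al + ms : ℂ) * (1 / 2 - (-v)) - (-al - 1 : ℂ) * (1 / 2 - y) + (-ms : ℂ) * (1 / 2 - (-v)) - (al + ms : ℂ) * (y + (-v))) / 2))) * I2

end Pool.Agent.AT.CV
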