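import Pool.Agent.AT.CV.Main
import Pool.Agent.AT.G.Turn

/-!
# Project AT, complex volume: the complex volume from the critical point
-/

namespace Pool.Agent.AT.CV

open Complex Pool.Agent.H63.VC7

variable {m p : ℕ}

/-- **The complex volume from the critical point.** -/
theorem isComplexVolume_of_crit {s t : Fin m → Fin p} {a : Fin p → ℤ} {y : Fin m → ℂ}
    {v : Fin p → ℂ} (h : G.CritS s t a y v) :
    ∃ Z : ℂ, AT.Hyp.IsComplexVolume s t a Z ∧
      ∃ k : ℤ, Z = 2 * Real.pi * I * G.WT s t a y v + (Real.pi : ℂ) ^ 2 / 2 * ∑ i, (a i : ℂ) +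
        k * (Real.pi : ℂ) ^ 2 :=
  isComplexVolume_of h.critT h.isGeom_c (fun j => G.turn_cX (h.sv j) (h.posC j))
    (fun j => G.turn_cY (h.sv j) (h.posC j))

end Pool.Agent.AT.CV
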