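import Pool.Agent.H63.VC.Asym
import Pool.Agent.H63.VC.EndB
import Pool.Agent.H63.VC.Riem
import Pool.Agent.H63.VC.SlowL
import Pool.Agent.H63.VC.SlowU
import Pool.Agent.H63.VC.Small
import Pool.Agent.H63.VC.VolA
import Pool.Agent.H63.VC3.StepDefs
import Pool.Agent.H63.VC5.Defs
import Pool.Agent.H63.VC5.DilogB

/-!
# Project AT, complex volume: the reflection formula of the dilogarithm on its cut

`dilog x + dilog (1 - x) = π²/6 - log x log (1 - x)` for real `x > 1` (with the principal values of
Lean, the limits from the lower half plane).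
-/

namespace Pool.Agent.AT.CV

open Pool.Agent.H63.VC5 Complex Filter Topology MeasureTheory

/-- the integrand on the real line -/
private noncomputable def g (s : ℝ) : ℂ := log (1 - (s : ℂ)) / s

private theorem g_meas : Measurable g := by
  unfold g
  fun_prop

private theorem g_log_int (a b : ℝ) :
    IntervalIntegrable (fun s : ℝ => log (1 - (s : ℂ))) volume a b := by
  have h1 : IntervalIntegrable (fun s : ℝ => Real.log (1 - s)) volume a b := by
    have := (intervalIntegral.intervalIntegrable_log' (a := 1 - a) (b := 1 - b)).comp_sub_left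
      (c := (1 : ℝ))
    simpa using this
  have h2 : IntervalIntegrable (fun s : ℝ => |Real.log (1 - s)| + Real.pi) volume a b :=
    h1.abs.add intervalIntegrable_const
  refine h2.mono_fun' ?_ ?_
  · apply Measurable.aestronglyMeasurable
    fun_prop
  · refine Eventually.of_forall fun s => ?_
    show ‖log (1 - (s : ℂ))‖ ≤ |Real.log (1 - s)| + Real.pi
    refine (Complex.norm_le_abs_re_add_abs_im _).trans ?_
    rw [log_re, log_im]
    have e : ‖(1 : ℂ) - (s : ℂ)‖ = |1 - s| := by
      rw [← ofReal_one, ← ofReal_sub, norm_real, Real.norm_eq_abs]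
    rw [e, Real.log_abs]
    have := abs_arg_le_pi (1 - (s : ℂ))
    linarith

private theorem g_int (b : ℝ) (hb : 0 ≤ b) : IntervalIntegrable g volume 0 b := by
  have h0 : IntervalIntegrable g volume 0 (1 / 2) := by
    have h := DilogA_intervalIntegrable (z := 1 / 2) (by left; norm_num)
    have h2 := h.comp_mul_left (c := (2 : ℝ))
    have h3 : IntervalIntegrable (fun x : ℝ => log (1 - ((2 * x : ℝ) : ℂ) * (1 / 2)) / ((2 * x : ℝ) : ℂ))
        volume 0 (1 / 2) := by
      simpa using h2
    refine (h3.const_mul 2).congr fun s _ => ?_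
    show 2 * (log (1 - ((2 * s : ℝ) : ℂ) * (1 / 2)) / ((2 * s : ℝ) : ℂ)) = g s
    unfold g
    have e : (1 : ℂ) - ((2 * s : ℝ) : ℂ) * (1 / 2) = 1 - (s : ℂ) := by push_cast; ring
    rw [e]
    push_cast
    by_cases hs : (s : ℂ) = 0
    · rw [hs]; simp
    · field_simp
  have h1 : ∀ c : ℝ, 1 / 2 ≤ c → IntervalIntegrable g volume (1 / 2) c := by
    intro c hc
    have h2 : ContinuousOn (fun s : ℝ => ((s : ℂ))⁻¹) (Set.uIcc (1 / 2) c) := by
      rw [Set.uIcc_of_le hc]
      refine ContinuousOn.inv₀ (by fun_prop) ?_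
      intro s hs h
      have h3 : s = 0 := by exact_mod_cast h
      have := hs.1
      rw [h3] at this
      norm_num at this
    have h3 := (g_log_int (1 / 2) c).mul_continuousOn h2
    refine h3.congr fun s _ => ?_
    show log (1 - (s : ℂ)) * ((s : ℂ))⁻¹ = g s
    unfold g
    rw [div_eq_mul_inv]
  rcases le_total b (1 / 2) with h | h
  · refine h0.mono_set ?_
    rw [Set.uIcc_of_le hb, Set.uIcc_of_le (by norm_num)]
    exact Set.Icc_subset_Icc_right h
  · exact h0.trans (h1 b h)

private theorem dilog_eq (x : ℝ) (hx : 0 < x) : dilog (x : ℂ) = -∫ s in (0 : ℝ)..x, g s := by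
  unfold dilog
  congr 1
  have h := intervalIntegral.integral_comp_mul_right (a := 0) (b := 1) (fun s => g s) hx.ne'
  rw [zero_mul, one_mul] at h
  have h2 : ∀ t : ℝ, log (1 - (t : ℂ) * (x : ℂ)) / (t : ℂ) = x • g (t * x) := by
    intro t
    unfold g
    rw [real_smul]
    push_cast
    have : (x : ℂ) ≠ 0 := by exact_mod_cast hx.ne'
    by_cases ht : (t : ℂ) = 0
    · rw [ht]; simp
    · field_simp
  simp_rw [h2]
  rw [intervalIntegral.integral_smul, h, smul_smul, mul_inv_cancel₀ hx.ne', one_smul]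

private theorem log_real {s : ℝ} (hs : 1 < s) :
    log (1 - (s : ℂ)) = ((Real.log (s - 1) : ℝ) : ℂ) + Real.pi * I := by
  have e1 : (1 : ℂ) - (s : ℂ) = ((1 - s : ℝ) : ℂ) := by push_cast; ring
  rw [e1, log, norm_real, Real.norm_of_nonpos (by linarith), arg_ofReal_of_neg (by linarith),
    neg_sub]

private theorem log_cont {x : ℝ} (hx : 1 < x) :
    ContinuousAt (fun s : ℝ => log (1 - (s : ℂ))) x := by
  have e : (fun s : ℝ => log (1 - (s : ℂ))) =ᶠ[𝓝 x]
      fun s : ℝ => ((Real.log (s - 1) : ℝ) : ℂ) + Real.pi * I := by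
    filter_upwards [Ioi_mem_nhds hx] with s hs
    have hs' : (1 : ℝ) < s := hs
    exact log_real hs'
  rw [continuousAt_congr e]
  have h1 : ContinuousAt (fun s : ℝ => Real.log (s - 1)) x :=
    ContinuousAt.log (by fun_prop) (by linarith)
  exact (continuous_ofReal.continuousAt.comp h1).add continuousAt_const

private theorem log_deriv {x : ℝ} (hx : 1 < x) :
    HasDerivAt (fun s : ℝ => log (1 - (s : ℂ))) (-(1 / (1 - (x : ℂ)))) x := by
  have e : (fun s : ℝ => log (1 - (s : ℂ))) =ᶠ[𝓝 x]
      fun s : ℝ => ((Real.log (s - 1) : ℝ) : ℂ) + Real.pi * I := by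
    filter_upwards [Ioi_mem_nhds hx] with s hs
    have hs' : (1 : ℝ) < s := hs
    exact log_real hs'
  refine HasDerivAt.congr_of_eventuallyEq ?_ e
  have h1 : HasDerivAt (fun s : ℝ => Real.log (s - 1)) (1 / (x - 1)) x :=
    ((hasDerivAt_id x).sub_const 1).log (by show x - 1 ≠ 0; linarith)
  have h2 := (h1.ofReal_comp).add_const ((Real.pi : ℂ) * I)
  refine h2.congr_deriv ?_
  have : (x : ℂ) - 1 ≠ 0 := by
    rw [← ofReal_one, ← ofReal_sub]
    exact_mod_cast (by linarith : x - 1 ≠ 0)
  have h3 : (1 : ℂ) - x ≠ 0 := by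
    intro h
    apply this
    linear_combination -h
  push_cast
  field_simp
  ring

private theorem dilog_deriv {x : ℝ} (hx : 1 < x) :
    HasDerivAt (fun s : ℝ => dilog (s : ℂ)) (-(log (1 - (x : ℂ)) / x)) x := by
  have hx0 : (0 : ℝ) < x := by linarith
  have hc : ContinuousAt g x := by
    unfold g
    refine (log_cont hx).div (by fun_prop) ?_
    exact_mod_cast hx0.ne'
  have h1 := intervalIntegral.integral_hasDerivAt_right (g_int x hx0.le)
    (g_meas.stronglyMeasurable.stronglyMeasurableAtFilter) hc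
  have e : (fun s : ℝ => dilog (s : ℂ)) =ᶠ[𝓝 x] fun s : ℝ => -∫ u in (0 : ℝ)..s, g u := by
    filter_upwards [Ioi_mem_nhds hx0] with s hs
    exact dilog_eq s hs
  exact h1.neg.congr_of_eventuallyEq e

/-- The function which is constant. -/
private noncomputable def f (x : ℝ) : ℂ :=
  dilog (x : ℂ) + dilog (1 - (x : ℂ)) + log (x : ℂ) * log (1 - (x : ℂ))

private theorem f_deriv {x : ℝ} (hx : 1 < x) : HasDerivAt f 0 x := by
  have hx0 : (0 : ℝ) < x := by linarith
  have hxc : (x : ℂ) ≠ 0 := by exact_mod_cast hx0.ne'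
  have h3 : (1 : ℂ) - x ≠ 0 := by
    rw [← ofReal_one, ← ofReal_sub]
    exact_mod_cast (by linarith : 1 - x ≠ 0)
  have hsl : (x : ℂ) ∈ slitPlane := by left; simpa using hx0
  have h1 := dilog_deriv hx
  have h2 : HasDerivAt (fun s : ℝ => dilog (1 - (s : ℂ))) (log (x : ℂ) / (1 - x)) x := by
    have k1 := dilog_hasDerivAt (1 - (x : ℂ)) h3 (by rw [sub_sub_cancel]; exact hsl)
    have k2 : HasDerivAt (fun s : ℝ => (1 : ℂ) - (s : ℂ)) (-1) x := by
      simpa using ((hasDerivAt_id x).ofReal_comp).const_sub 1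
    have k3 := k1.comp x k2
    refine k3.congr_deriv ?_
    rw [sub_sub_cancel]
    ring
  have h4 : HasDerivAt (fun s : ℝ => log (s : ℂ)) (1 / (x : ℂ)) x := by
    have k2 : HasDerivAt (fun s : ℝ => (s : ℂ)) 1 x := by
      simpa using (hasDerivAt_id x).ofReal_comp
    exact k2.clog_real hsl
  have h5 := (h1.add h2).add (h4.mul (log_deriv hx))
  refine h5.congr_deriv ?_
  field_simp
  ring

private theorem f_cont (X : ℝ) (hX : 1 < X) : ContinuousOn f (Set.Icc 1 X) := by
  have hd : ContinuousOn (fun s : ℝ => dilog (s : ℂ)) (Set.Icc 1 X) := by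
    have h1 : ContinuousOn (fun s : ℝ => -∫ u in (0 : ℝ)..s, g u) (Set.Icc 0 X) := by
      have h2 : IntegrableOn g (Set.uIcc 0 X) volume := by
        rw [Set.uIcc_of_le (by linarith)]
        have := g_int X (by linarith)
        rw [intervalIntegrable_iff_integrableOn_Icc_of_le (by linarith)] at this
        exact this
      have h3 := intervalIntegral.continuousOn_primitive_interval h2
      rw [Set.uIcc_of_le (by linarith)] at h3
      exact h3.neg
    refine (h1.mono (Set.Icc_subset_Icc_left zero_le_one)).congr ?_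
    intro s hs
    exact dilog_eq s (by linarith [hs.1])
  have hd' : ContinuousOn (fun s : ℝ => dilog (1 - (s : ℂ))) (Set.Icc 1 X) := by
    intro s hs
    apply ContinuousAt.continuousWithinAt
    have h1 : ContinuousAt dilog (1 - (s : ℂ)) := by
      refine (DilogA_hasDerivAt _ ?_).continuousAt
      rw [sub_sub_cancel]
      left
      have := hs.1
      simp
      linarith
    exact ContinuousAt.comp (g := dilog) (f := fun s : ℝ => (1 : ℂ) - (s : ℂ)) h1 (by fun_prop)
  have hl : ContinuousOn (fun s : ℝ => log (s : ℂ) * log (1 - (s : ℂ))) (Set.Icc 1 X) := by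
    intro s hs
    rcases eq_or_lt_of_le hs.1 with h | h
    · subst h
      have hb : ∀ s : ℝ, s ∈ Set.Icc (1 : ℝ) X → ‖log (s : ℂ) * log (1 - (s : ℂ))‖ ≤
          |(s - 1) * Real.log (s - 1)| + (s - 1) * Real.pi := by
        intro s hs
        have e1 : log (s : ℂ) = ((Real.log s : ℝ) : ℂ) := (ofReal_log (by linarith [hs.1])).symm
        have h1 : 0 ≤ Real.log s := Real.log_nonneg hs.1
        have h2 : Real.log s ≤ s - 1 := Real.log_le_sub_one_of_pos (by linarith [hs.1])
        have h3 : ‖log (1 - (s : ℂ))‖ ≤ |Real.log (s - 1)| + Real.pi := by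
          refine (Complex.norm_le_abs_re_add_abs_im _).trans ?_
          rw [log_re, log_im]
          have e : ‖(1 : ℂ) - (s : ℂ)‖ = |s - 1| := by
            rw [← ofReal_one, ← ofReal_sub, norm_real, Real.norm_eq_abs, abs_sub_comm]
          rw [e, Real.log_abs]
          have := abs_arg_le_pi (1 - (s : ℂ))
          linarith
        rw [norm_mul, e1, norm_real, Real.norm_of_nonneg h1, abs_mul,
          abs_of_nonneg (by linarith [hs.1] : 0 ≤ s - 1)]
        calc Real.log s * ‖log (1 - (s : ℂ))‖ ≤ (s - 1) * (|Real.log (s - 1)| + Real.pi) :=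
              mul_le_mul h2 h3 (norm_nonneg _) (by linarith [hs.1])
          _ = _ := by ring
      have hz : log ((1 : ℝ) : ℂ) * log (1 - ((1 : ℝ) : ℂ)) = 0 := by simp
      have hc : Continuous (fun s : ℝ => |(s - 1) * Real.log (s - 1)| + (s - 1) * Real.pi) := by
        have := Real.continuous_mul_log.comp (continuous_sub_right (1 : ℝ))
        exact this.abs.add (by fun_prop)
      have hlim : Tendsto (fun s : ℝ => |(s - 1) * Real.log (s - 1)| + (s - 1) * Real.pi)
          (𝓝[Set.Icc 1 X] 1) (𝓝 0) := by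
        have := hc.tendsto 1
        simp only [sub_self, zero_mul, abs_zero, zero_add] at this
        exact this.mono_left nhdsWithin_le_nhds
      show Tendsto (fun s : ℝ => log (s : ℂ) * log (1 - (s : ℂ))) (𝓝[Set.Icc 1 X] 1)
        (𝓝 (log ((1 : ℝ) : ℂ) * log (1 - ((1 : ℝ) : ℂ))))
      rw [hz]
      refine squeeze_zero_norm' ?_ hlim
      filter_upwards [self_mem_nhdsWithin] with s hs
      exact hb s hs
    · apply ContinuousAt.continuousWithinAt
      have hsl : (s : ℂ) ∈ slitPlane := by left; simp; linarith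
      exact (continuous_ofReal.continuousAt.clog hsl).mul (log_cont h)
  exact (hd.add hd').add hl

/-- **The reflection formula on the cut.** -/
theorem dilog_compl_real {x : ℝ} (hx : 1 < x) : dilog (x : ℂ) + dilog (1 - (x : ℂ)) =
    (Real.pi : ℂ) ^ 2 / 6 - log (x : ℂ) * log (1 - (x : ℂ)) := by
  have hc := f_cont x hx
  have h1 : f 1 = (Real.pi : ℂ) ^ 2 / 6 := by
    unfold f
    simp [dilog_one, dilog_zero]
  have h2 : ∀ a : ℝ, 1 < a → a ≤ x → f x = f a := by
    intro a ha hax
    exact constant_of_has_deriv_right_zero (hc.mono (Set.Icc_subset_Icc_left ha.le))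
      (fun t ht => (f_deriv (lt_of_lt_of_le ha ht.1)).hasDerivWithinAt) x ⟨hax, le_rfl⟩
  have h3 : Tendsto f (𝓝[Set.Icc 1 x] 1) (𝓝 (f 1)) := hc 1 ⟨le_rfl, hx.le⟩
  have h4 : Tendsto f (𝓝[Set.Ioo 1 x] 1) (𝓝 (f 1)) :=
    h3.mono_left (nhdsWithin_mono _ Set.Ioo_subset_Icc_self)
  have h5 : Tendsto f (𝓝[Set.Ioo 1 x] 1) (𝓝 (f x)) := by
    refine (tendsto_const_nhds (x := f x)).congr' ?_
    filter_upwards [self_mem_nhdsWithin] with s hs
    exact h2 s hs.1 hs.2.le
  have hne : (𝓝[Set.Ioo 1 x] (1 : ℝ)).NeBot := by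
    rw [nhdsWithin_Ioo_eq_nhdsGT hx]
    infer_instance
  have h6 := tendsto_nhds_unique h5 h4
  rw [h1] at h6
  unfold f at h6
  linear_combination h6

end Pool.Agent.AT.CV
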