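import Pool.Agent.AT.CV.Sum
import Pool.Agent.AT.G.Flat

/-!
# Project AT, complex volume: the complex volume of the link complement
-/

namespace Pool.Agent.AT.CV

open Complex Pool.Agent.H63.VC3 Pool.Agent.H63.VC5 Pool.Agent.H63.VC7 Pool.Agent.S3 Pool.Agent.S3.G

variable {m p : ℕ}

/-- **The complex volume at the critical point.** -/
theorem isComplexVolume_of {s t : Fin m → Fin p} {a : Fin p → ℤ} {y : Fin m → ℂ}
    {v : Fin p → ℂ} (hc : G.CritT s t a y v)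
    (hg : AT.Hyp.IsGeom s t a (fun j => G.cX (y j) (v (s j)) (v (t j)))
      (fun j => G.cY (y j) (v (s j)) (v (t j))))
    (hX : ∀ j, AT.Hyp.turn 1 2 (G.cX (y j) (v (s j)) (v (t j))) =
      shx (y j) (v (s j)) (v (t j)))
    (hY : ∀ j, AT.Hyp.turn 2 1 (G.cY (y j) (v (s j)) (v (t j))) =
      shy (y j) (v (s j)) (v (t j))) :
    ∃ Z : ℂ, AT.Hyp.IsComplexVolume s t a Z ∧
      ∃ k : ℤ, Z = 2 * Real.pi * I * G.WT s t a y v + (Real.pi : ℂ) ^ 2 / 2 * ∑ i, (a i : ℂ) +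
        k * (Real.pi : ℂ) ^ 2 := by
  obtain ⟨n, al, be, hn⟩ := wu_exists s t hc.st hc.ne a
  obtain ⟨f, f', hf⟩ := flip_exists s t hc.st hc.ne a
  refine ⟨∑ j, Hyp.blockR (shx (y j) (v (s j)) (v (t j))) (shy (y j) (v (s j)) (v (t j)))
        (FX (y j) (v (s j)) (v (t j)) (n (s j)) (n (t j)) (al j) (be j))
        (FY (y j) (v (s j)) (v (t j)) (n (s j)) (n (t j)) (al j) (be j)) (f j) (f' j),
    ⟨_, _, fun j => FX (y j) (v (s j)) (v (t j)) (n (s j)) (n (t j)) (al j) (be j),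
    fun j => FY (y j) (v (s j)) (v (t j)) (n (s j)) (n (t j)) (al j) (be j),
    fun i => 2 * Real.pi * I * v i + n i * (Real.pi * I),
    fun i => hh (v i + 1 / 2) + n i / 2 * (Real.pi * I), f, f', hg, fun j k => ?_,
    fun j => ⟨Fl.sum_FX (hc.blk j) _ _ _ _, Fl.sum_FY (hc.blk j) _ _ _ _⟩,
    Fl.glue_flat hc (fun j => (hc.blk j).st) n al be hn, hf, ?_⟩, ?_⟩
  · simp only [hX j, hY j]
    exact ⟨Fl.isFlat_X (hc.blk j) _ _ _ _ k, Fl.isFlat_Y (hc.blk j) _ _ _ _ k⟩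
  · exact Finset.sum_congr rfl fun j _ => by rw [hX j, hY j]
  · exact sum_R hc n al be hn f f' hf

end Pool.Agent.AT.CV
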