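import Pool.Agent.AT.CV.Path
import Pool.Agent.AT.G.FlatDefs
import Pool.Agent.H25.RK.DGI
import Pool.Agent.H63.GO.MTaylor
import Pool.Agent.H63.VC4.GaussN
import Pool.Agent.H63.VC4.LaplaceN
import Pool.Agent.H63.VC4.RegCrit
import Pool.Agent.H63.VC4.Vertex
import Pool.Agent.H63.VC7.BlockRC
import Pool.Agent.S3.Asm.Def
import Pool.Agent.S3.Chain
import Pool.Agent.S3.Pot

/-!
# Project AT, complex volume: two tetrahedra glued along a face

The values of the tetrahedra of `P` and `P'` with the same `u`, modulo `π²`, on the whole domain: along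
the segment from `(1/4, 0)` both sides have the same derivative, and at `(1/4, 0)` they are equal by
`VC7.BlockRC_pair`.
-/

namespace Pool.Agent.AT.CV

open Complex Filter Topology Pool.Agent.H63.VC3 Pool.Agent.H63.VC5 Pool.Agent.H63.VC7
open Pool.Agent.S3 Pool.Agent.S3.G

/-! ### The logarithms -/

theorem exp_hh_half {y : ℂ} (h : |y.re| < 1 / 2) : exp (hh (y + 1 / 2)) = 2 * cos (Real.pi * y) ∧
    cos (Real.pi * y) ≠ 0 := by
  obtain ⟨h1, h2⟩ := abs_lt.1 h
  have e : (y + 1 / 2).re = y.re + 1 / 2 := by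
    rw [add_re]
    norm_num
  have hc : sin (Real.pi * (y + 1 / 2)) = cos (Real.pi * y) := by
    rw [← Complex.sin_add_pi_div_two]
    congr 1
    ring
  have k := hh_exp (y + 1 / 2) (by rw [e]; linarith) (by rw [e]; linarith)
  rw [hc] at k
  refine ⟨k, fun h0 => ?_⟩
  rw [h0, mul_zero] at k
  exact exp_ne_zero _ k

theorem exp_he_sin {z : ℂ} (h : fdo z) : exp (he z) = 2 * sin (Real.pi * z) ∧
    sin (Real.pi * z) ≠ 0 := by
  have k := exp_he (z := z) h
  refine ⟨k, fun h0 => ?_⟩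
  rw [h0, mul_zero] at k
  exact exp_ne_zero _ k

theorem exp_LX {y u : ℂ} (h : Dm y u) : exp (LX y u 0) = sX y u := by
  obtain ⟨a2, a3⟩ := exp_hh_half h.hy
  obtain ⟨c2, c3⟩ := exp_he_sin h.d
  show exp (Real.pi * I / 2 - Real.pi * I * u + hh (y + 1 / 2) - he (y + u)) = sX y u
  rw [exp_sub, exp_add, exp_sub, LogP_expI, a2, c2, sX, exp_neg]
  field_simp

theorem exp_LY {y u : ℂ} (h : Dm y u) : exp (LY y u 0) = sY y u := by
  obtain ⟨a2, a3⟩ := exp_hh_half h.hy
  obtain ⟨c2, c3⟩ := exp_he_sin h.d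
  show exp (Real.pi * I / 2 - Real.pi * I * u + he (y + u) - hh (y + 1 / 2)) = sY y u
  rw [exp_sub, exp_add, exp_sub, LogP_expI, a2, c2, sY, exp_neg]
  field_simp

theorem lgr_LX {y u : ℂ} (h : Dm y u) : Lgr (LX y u) := by
  obtain ⟨a2, a3⟩ := exp_hh_half h.hy
  obtain ⟨b2, b3⟩ := exp_hh_half h.hu
  obtain ⟨c2, c3⟩ := exp_he_sin h.d
  constructor
  · rw [exp_LX h]
    show sX y u + exp (-(Real.pi * I / 2 - Real.pi * I * y + he (y + u) - hh (u + 1 / 2))) = 1
    have h1X : 1 - sX y u = -I * exp (Real.pi * I * y) * cos (Real.pi * u) /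
        sin (Real.pi * (y + u)) := by
      rw [← LogP_id1, sX]
      field_simp
    have E1 : exp (-(Real.pi * I / 2 - Real.pi * I * y + he (y + u) - hh (u + 1 / 2))) =
        1 - sX y u := by
      rw [h1X, show -(Real.pi * I / 2 - Real.pi * I * y + he (y + u) - hh (u + 1 / 2)) =
        Real.pi * I * y + hh (u + 1 / 2) - he (y + u) - Real.pi * I / 2 by ring, exp_sub, exp_sub,
        exp_add, LogP_expI, b2, c2]
      have hI := I_ne_zero
      field_simp
      rw [I_sq]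
      ring
    rw [E1]
    ring
  · show (Real.pi * I / 2 - Real.pi * I * u + hh (y + 1 / 2) - he (y + u)) +
      (Real.pi * I / 2 - Real.pi * I * y + he (y + u) - hh (u + 1 / 2)) +
      (Real.pi * I * (y + u) + hh (u + 1 / 2) - hh (y + 1 / 2)) = Real.pi * I
    ring

theorem lgr_LY {y u : ℂ} (h : Dm y u) : Lgr (LY y u) := by
  obtain ⟨a2, a3⟩ := exp_hh_half h.hy
  obtain ⟨b2, b3⟩ := exp_hh_half h.hu
  obtain ⟨c2, c3⟩ := exp_he_sin h.d
  constructor
  · rw [exp_LY h]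
    show sY y u + exp (-(Real.pi * I * (y + u) + hh (y + 1 / 2) - hh (u + 1 / 2))) = 1
    have h1X : 1 - sY y u = exp (-(Real.pi * I * (y + u))) * cos (Real.pi * u) /
        cos (Real.pi * y) := by
      rw [← LogP_id2, sY]
      field_simp
    have E1 : exp (-(Real.pi * I * (y + u) + hh (y + 1 / 2) - hh (u + 1 / 2))) = 1 - sY y u := by
      rw [h1X, show -(Real.pi * I * (y + u) + hh (y + 1 / 2) - hh (u + 1 / 2)) =
        -(Real.pi * I * (y + u)) + hh (u + 1 / 2) - hh (y + 1 / 2) by ring, exp_sub, exp_add, b2, a2]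
      field_simp
    rw [E1]
    ring
  · show (Real.pi * I / 2 - Real.pi * I * u + he (y + u) - hh (y + 1 / 2)) +
      (Real.pi * I * (y + u) + hh (y + 1 / 2) - hh (u + 1 / 2)) +
      (Real.pi * I / 2 - Real.pi * I * y + hh (u + 1 / 2) - he (y + u)) = Real.pi * I
    ring

/-! ### The explicit formula -/

/-- The sum of the values of the two tetrahedra, without ordering. -/
noncomputable def EP (y u : ℂ) (n m : Fin 3 → ℤ) : ℂ :=
  2 * Real.pi * I * (ff (y + 1 / 2) - fe (y + u) + ff (u + 1 / 2)) +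
    Real.pi * I / 2 * (Real.pi * I / 2 - Real.pi * I * u) +
    (Real.pi * I / 2 - Real.pi * I * u) * (hh (u + 1 / 2) - he (y + u)) -
    Real.pi * I * y * (hh (y + 1 / 2) - he (y + u)) +
  Real.pi * I / 2 * (n 1 * (Real.pi * I / 2 - Real.pi * I * u + hh (y + 1 / 2) - he (y + u)) -
    n 0 * (Real.pi * I / 2 - Real.pi * I * y + he (y + u) - hh (u + 1 / 2))) +
  Real.pi * I / 2 * (m 1 * (Real.pi * I / 2 - Real.pi * I * u + he (y + u) - hh (y + 1 / 2)) -
    m 0 * (Real.pi * I * (y + u) + hh (y + 1 / 2) - hh (u + 1 / 2)))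

/-! ### The segment -/

private theorem Dm_seg {y u : ℂ} (h : Dm y u) {t : ℝ} (h0 : 0 ≤ t) (h1 : t ≤ 1) :
    Dm (1 / 4 + t * (y - 1 / 4)) (t * u) := by
  have e1 : (1 / 4 + t * (y - 1 / 4) : ℂ).re = (1 - t) / 4 + t * y.re := by
    rw [add_re, re_ofReal_mul, sub_re]
    norm_num
    ring
  have e2 : (t * u : ℂ).re = t * u.re := re_ofReal_mul _ _
  have e3 : (1 / 4 + t * (y - 1 / 4) + t * u : ℂ).im = t * (y + u).im := by
    rw [add_im, add_im, im_ofReal_mul, im_ofReal_mul, sub_im, add_im]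
    norm_num
    ring
  have e4 : (1 / 4 + t * (y - 1 / 4) + t * u : ℂ).re = (1 - t) / 4 + t * (y + u).re := by
    rw [add_re, e1, e2, add_re]
    ring
  obtain ⟨y1, y2⟩ := abs_lt.1 h.hy
  refine ⟨?_, ?_, ?_⟩
  · rw [e1, abs_lt]
    constructor
    · rcases eq_or_lt_of_le h1 with h2 | h2
      · rw [h2]; linarith
      · nlinarith
    · rcases eq_or_lt_of_le h1 with h2 | h2
      · rw [h2]; linarith
      · nlinarith
  · rw [e2, abs_mul, abs_of_nonneg h0]
    calc t * |u.re| ≤ 1 * |u.re| := mul_le_mul_of_nonneg_right h1 (abs_nonneg _)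
      _ = |u.re| := one_mul _
      _ < 1 / 2 := h.hu
  · unfold fdo
    rw [e3, e4]
    rcases eq_or_lt_of_le h0 with h2 | h2
    · right
      rw [← h2]
      norm_num
    · rcases h.d with h3 | ⟨h3, h4⟩
      · left
        exact mul_ne_zero h2.ne' h3
      · right
        constructor
        · have := mul_pos h2 h3
          linarith
        · rcases eq_or_lt_of_le h1 with h5 | h5
          · rw [h5]; linarith
          · nlinarith

private theorem Dm_nhds {y u : ℂ} (h : Dm y u) : ∀ᶠ p : ℂ × ℂ in 𝓝 (y, u), Dm p.1 p.2 := by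
  have h1 : ∀ᶠ p : ℂ × ℂ in 𝓝 (y, u), |p.1.re| < 1 / 2 :=
    (isOpen_lt (by fun_prop) continuous_const).mem_nhds h.hy
  have h2 : ∀ᶠ p : ℂ × ℂ in 𝓝 (y, u), |p.2.re| < 1 / 2 :=
    (isOpen_lt (by fun_prop) continuous_const).mem_nhds h.hu
  have h3 : ∀ᶠ p : ℂ × ℂ in 𝓝 (y, u), fdo (p.1 + p.2) := by
    have hc : Continuous fun p : ℂ × ℂ => p.1 + p.2 := by fun_prop
    exact (fdom_open.preimage hc).mem_nhds h.d
  filter_upwards [h1, h2, h3] with p a b c
  exact ⟨a, b, c⟩

private theorem hh_base (u : ℂ) (hu : u = 0) : LX (1 / 4) u 0 = l0 (sX (1 / 4) u) ∧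
    LX (1 / 4) u 1 = l1 (sX (1 / 4) u) ∧ LX (1 / 4) u 2 = l2 (sX (1 / 4) u) ∧
    0 < (sX (1 / 4) u).im ∧ LY (1 / 4) u 0 = l0 (sY (1 / 4) u) ∧
    LY (1 / 4) u 1 = l1 (sY (1 / 4) u) ∧ LY (1 / 4) u 2 = l2 (sY (1 / 4) u) ∧
    0 < (sY (1 / 4) u).im ∧ he (1 / 4 + u) = hh (1 / 4 + u) := by
  have hd : ‖(1 / 4 : ℂ) - 1 / 4‖ ≤ 6 / 1000 := by
    rw [sub_self, norm_zero]
    norm_num
  have h1 : |u.re| ≤ 53 / 1000 := by rw [hu]; norm_num
  have h2 : |u.im| ≤ 3 / 1000 := by rw [hu]; norm_num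
  have he' : he (1 / 4 + u) = hh (1 / 4 + u) := by
    apply he_eq_hh
    · rw [hu]; norm_num
    · rw [hu]; norm_num
  obtain ⟨a0, a1, a2, ap⟩ := sX_log (1 / 4) u hd h1 h2
  obtain ⟨b0, b1, b2, bp⟩ := sY_log (1 / 4) u hd h1 h2
  rw [← he'] at a0 a1 b0 b2
  exact ⟨a0.symm, a1.symm, a2.symm, ap, b0.symm, b1.symm, b2.symm, bp, he'⟩

/-- The values of two tetrahedra glued along a face, modulo `π²`, for every ordering. -/
theorem pair {y u : ℂ} (h : Dm y u) (n m : Fin 3 → ℤ) (hn : n 0 + n 1 + n 2 = -1)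
    (hm : m 0 + m 1 + m 2 = -1) {a b a' b' : Fin 3} (hab : a ≠ b) (hab' : a' ≠ b') {c : ℂ}
    (hbase : Cg (Hyp.tetR (sX (1 / 4) 0) (fun c => Hyp.lgs (sX (1 / 4) 0) c + n c * (Real.pi * I)) a b +
        Hyp.tetR (sY (1 / 4) 0) (fun c => Hyp.lgs (sY (1 / 4) 0) c + m c * (Real.pi * I)) a' b')
      (rh1 (sX (1 / 4) 0) n + rh1 (sY (1 / 4) 0) m + c)) :
    Cg (Hyp.tetR (sX y u) (fun c => LX y u c + n c * (Real.pi * I)) a b +
        Hyp.tetR (sY y u) (fun c => LY y u c + m c * (Real.pi * I)) a' b')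
      (EP y u n m + c) := by
  let Y : ℝ → ℂ := fun t => 1 / 4 + t * (y - 1 / 4)
  let U : ℝ → ℂ := fun t => t * u
  have hY : ∀ t, HasDerivAt Y (y - 1 / 4) t := by
    intro t
    have h : HasDerivAt Y (((1 : ℝ) : ℂ) * (y - 1 / 4)) t :=
      (((hasDerivAt_id t).ofReal_comp).mul_const (y - 1 / 4)).const_add (1 / 4)
    rwa [ofReal_one, one_mul] at h
  have hU : ∀ t, HasDerivAt U u t := by
    intro t
    have h : HasDerivAt U (((1 : ℝ) : ℂ) * u) t := ((hasDerivAt_id t).ofReal_comp).mul_const u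
    rwa [ofReal_one, one_mul] at h
  let T : ℝ → ℂ := fun t =>
    Hyp.tetR (exp (LX (Y t) (U t) 0)) (fun c => LX (Y t) (U t) c + n c * (Real.pi * I)) a b +
    Hyp.tetR (exp (LY (Y t) (U t) 0)) (fun c => LY (Y t) (U t) c + m c * (Real.pi * I)) a' b' -
    EP (Y t) (U t) n m
  have hT : ∀ t ∈ Set.Icc (0 : ℝ) 1, LD T 0 t := by
    intro t ht
    have hD : Dm (Y t) (U t) := Dm_seg h ht.1 ht.2
    have hev : ∀ᶠ s in 𝓝 t, Dm (Y s) (U s) := by
      have hc : ContinuousAt (fun s => (Y s, U s)) t :=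
        (hY t).continuousAt.prodMk (hU t).continuousAt
      exact hc.eventually (Dm_nhds hD)
    have r1 : (Y t + 1 / 2).re = (Y t).re + 1 / 2 := by rw [add_re]; norm_num
    have r2 : (U t + 1 / 2).re = (U t).re + 1 / 2 := by rw [add_re]; norm_num
    obtain ⟨y1, y2⟩ := abs_lt.1 hD.hy
    obtain ⟨u1, u2⟩ := abs_lt.1 hD.hu
    have dH := (Pot_hh_deriv (z := Y t + 1 / 2) (by rw [r1]; linarith)
      (by rw [r1]; linarith)).comp_of_eq t ((hY t).add_const (1 / 2)) rfl
    have dK := (Pot_hh_deriv (z := U t + 1 / 2) (by rw [r2]; linarith)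
      (by rw [r2]; linarith)).comp_of_eq t ((hU t).add_const (1 / 2)) rfl
    have dh := (he_hasDerivAt (z := Y t + U t) hD.d).comp_of_eq t ((hY t).add (hU t)) rfl
    have fH := (ff_hasDerivAt (Y t + 1 / 2) (by rw [r1]; linarith) (by rw [r1]; linarith)).comp_of_eq t
      ((hY t).add_const (1 / 2)) rfl
    have fK := (ff_hasDerivAt (U t + 1 / 2) (by rw [r2]; linarith) (by rw [r2]; linarith)).comp_of_eq t
      ((hU t).add_const (1 / 2)) rfl
    have fh := (fe_hasDerivAt (z := Y t + U t) hD.d).comp_of_eq t ((hY t).add (hU t)) rfl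
    set H' := ct (Y t + 1 / 2) * (y - 1 / 4)
    set K' := ct (U t + 1 / 2) * u
    set h' := ct (Y t + U t) * (y - 1 / 4 + u)
    have dA : HasDerivAt (fun t => Real.pi * I / 2 - Real.pi * I * U t) (-(Real.pi * I * u)) t :=
      ((hU t).const_mul (Real.pi * I : ℂ)).const_sub (Real.pi * I / 2 : ℂ)
    have dB : HasDerivAt (fun t => Real.pi * I / 2 - Real.pi * I * Y t)
        (-(Real.pi * I * (y - 1 / 4))) t :=
      ((hY t).const_mul (Real.pi * I : ℂ)).const_sub (Real.pi * I / 2 : ℂ)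
    have dC : HasDerivAt (fun t => Real.pi * I * (Y t + U t)) (Real.pi * I * (y - 1 / 4 + u)) t :=
      ((hY t).add (hU t)).const_mul (Real.pi * I : ℂ)
    have dX0 : HasDerivAt (fun s => LX (Y s) (U s) 0) (-(Real.pi * I * u) + H' - h') t :=
      (dA.add dH).sub dh
    have dX1 : HasDerivAt (fun s => LX (Y s) (U s) 1) (-(Real.pi * I * (y - 1 / 4)) + h' - K') t :=
      (dB.add dh).sub dK
    have dX2 : HasDerivAt (fun s => LX (Y s) (U s) 2) (Real.pi * I * (y - 1 / 4 + u) + K' - H') t :=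
      (dC.add dK).sub dH
    have dY0 : HasDerivAt (fun s => LY (Y s) (U s) 0) (-(Real.pi * I * u) + h' - H') t :=
      (dA.add dh).sub dH
    have dY1 : HasDerivAt (fun s => LY (Y s) (U s) 1) (Real.pi * I * (y - 1 / 4 + u) + H' - K') t :=
      (dC.add dH).sub dK
    have dY2 : HasDerivAt (fun s => LY (Y s) (U s) 2) (-(Real.pi * I * (y - 1 / 4)) + K' - h') t :=
      (dB.add dK).sub dh
    have tX := tetR_path (L := fun s => LX (Y s) (U s))
      (L' := ![-(Real.pi * I * u) + H' - h', -(Real.pi * I * (y - 1 / 4)) + h' - K',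
        Real.pi * I * (y - 1 / 4 + u) + K' - H'])
      (by intro c; fin_cases c; exacts [dX0, dX1, dX2])
      (hev.mono fun s hs => lgr_LX hs) n hn hab
    have tY := tetR_path (L := fun s => LY (Y s) (U s))
      (L' := ![-(Real.pi * I * u) + h' - H', Real.pi * I * (y - 1 / 4 + u) + H' - K',
        -(Real.pi * I * (y - 1 / 4)) + K' - h'])
      (by intro c; fin_cases c; exacts [dY0, dY1, dY2])
      (hev.mono fun s hs => lgr_LY hs) m hm hab'
    have dE : HasDerivAt (fun s => EP (Y s) (U s) n m) _ t :=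
      ((((((fH.sub fh).add fK).const_mul (2 * Real.pi * I : ℂ)).add
        (dA.const_mul (Real.pi * I / 2 : ℂ))).add (dA.mul (dK.sub dh))).sub
        (((hY t).const_mul (Real.pi * I : ℂ)).mul (dH.sub dh))).add
        (((dX0.const_mul (n 1 : ℂ)).sub (dX1.const_mul (n 0 : ℂ))).const_mul
          (Real.pi * I / 2 : ℂ)) |>.add
        (((dY0.const_mul (m 1 : ℂ)).sub (dY1.const_mul (m 0 : ℂ))).const_mul
          (Real.pi * I / 2 : ℂ))
    refine ((tX.add tY).sub (LD.of_deriv dE)).cast ?_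
    simp only [Function.comp_apply, Pi.sub_apply, Pi.add_apply, Matrix.cons_val_zero,
      Matrix.cons_val_one, LX, LY]
    ring
  have hfin := LD_const hT
  have eY1 : Y 1 = y := by simp [Y]
  have eU1 : U 1 = u := by simp [U]
  have eY0 : Y 0 = 1 / 4 := by simp [Y]
  have eU0 : U 0 = 0 := by simp [U]
  have e1 : T 1 = Hyp.tetR (sX y u) (fun c => LX y u c + n c * (Real.pi * I)) a b +
      Hyp.tetR (sY y u) (fun c => LY y u c + m c * (Real.pi * I)) a' b' - EP y u n m := by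
    simp only [T, eY1, eU1]
    rw [exp_LX h, exp_LY h]
  obtain ⟨a0, a1, a2, ap, b0, b1, b2, bp, hb⟩ := hh_base 0 rfl
  have hDb : Dm (1 / 4) 0 := by
    have := Dm_seg h (t := 0) le_rfl zero_le_one
    simpa using this
  have e0 : T 0 = Hyp.tetR (sX (1 / 4) 0)
        (fun c => Hyp.lgs (sX (1 / 4) 0) c + n c * (Real.pi * I)) a b +
      Hyp.tetR (sY (1 / 4) 0) (fun c => Hyp.lgs (sY (1 / 4) 0) c + m c * (Real.pi * I)) a' b' -
      EP (1 / 4) 0 n m := by
    simp only [T, eY0, eU0]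
    rw [exp_LX hDb, exp_LY hDb]
    have f1 : (fun c => LX (1 / 4) 0 c + n c * (Real.pi * I)) =
        fun c => Hyp.lgs (sX (1 / 4) 0) c + n c * (Real.pi * I) := by
      funext c
      congr 1
      fin_cases c
      exacts [a0, a1, a2]
    have f2 : (fun c => LY (1 / 4) 0 c + m c * (Real.pi * I)) =
        fun c => Hyp.lgs (sY (1 / 4) 0) c + m c * (Real.pi * I) := by
      funext c
      congr 1
      fin_cases c
      exacts [b0, b1, b2]
    rw [f1, f2]
  have hE : rh1 (sX (1 / 4) 0) n + rh1 (sY (1 / 4) 0) m = EP (1 / 4) 0 n m := by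
    rw [BlockRC_pair (1 / 4) 0 (by rw [sub_self, norm_zero]; norm_num) (by norm_num) (by norm_num) n m]
    unfold EP
    rw [hb, fe_eq_ff (z := 1 / 4 + 0) (by norm_num) (by norm_num)]
  rw [e1, e0] at hfin
  rw [hE] at hbase
  have h2 := (hfin.add (Cg.refl (EP y u n m))).trans
    ((hbase.sub (Cg.refl (EP (1 / 4) 0 n m))).add (Cg.refl (EP y u n m)))
  rw [sub_add_cancel, add_sub_cancel_left, add_comm c] at h2
  exact h2

end Pool.Agent.AT.CV
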