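import Pool.Agent.AT.CV.DilogR
import Pool.Agent.H63.VC3.CritB
import Pool.Agent.H63.VC3.Upper
import Pool.Agent.H63.VC4.KBN
import Pool.Agent.H63.VC4.UpperN
import Pool.Agent.H63.VC6.LocU
import Pool.Agent.H63.VC6.SlotU
import Pool.Agent.H63.VC7.Defs
import Pool.Agent.H63.VC7.Link
import Pool.Agent.H63.VC7.TetRC

/-!
# Project AT, complex volume: the value of a flattened tetrahedron along a path, modulo `π²`

`LD R c t`: the function `R`, modulo `π²`, has the derivative `c` at `t`. For a path of logarithmic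
parameters `L 0, L 1, L 2` of a tetrahedron (`exp (L c)` the shape parameters, sum `π i`) and integers
`n` of sum `-1` the value `tetR` of the flattening `L c + n c π i`, for each ordering, has the
derivative `(F 1 dF 0 - F 0 dF 1) / 2`.
-/

namespace Pool.Agent.AT.CV

open Pool.Agent.H63.VC5 Pool.Agent.H63.VC7 Complex Filter Topology

/-- A complex number modulo `π²`. -/
noncomputable def ee (x : ℂ) : ℂ := exp (2 * I / Real.pi * x)

private theorem pi_ne : (Real.pi : ℂ) ≠ 0 := by exact_mod_cast Real.pi_ne_zero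

theorem ee_ne (x : ℂ) : ee x ≠ 0 := exp_ne_zero _

theorem ee_add (x y : ℂ) : ee (x + y) = ee x * ee y := by
  unfold ee
  rw [mul_add, exp_add]

theorem ee_neg (x : ℂ) : ee (-x) = (ee x)⁻¹ := by
  unfold ee
  rw [mul_neg, exp_neg]

theorem ee_iff {x y : ℂ} : ee x = ee y ↔ Cg x y := by
  unfold ee
  rw [Complex.exp_eq_exp_iff_exists_int]
  have hp := pi_ne
  have hI := I_ne_zero
  constructor
  · rintro ⟨n, hn⟩
    refine ⟨n, ?_⟩
    have h2 : 2 * I / (Real.pi : ℂ) * (x - (y + n * (Real.pi : ℂ) ^ 2)) = 0 := by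
      rw [mul_sub, hn]
      field_simp
      ring
    rcases mul_eq_zero.1 h2 with h3 | h3
    · exfalso
      rw [div_eq_zero_iff] at h3
      rcases h3 with h3 | h3
      · exact (mul_ne_zero two_ne_zero hI) h3
      · exact hp h3
    · exact sub_eq_zero.1 h3
  · rintro ⟨n, rfl⟩
    refine ⟨n, ?_⟩
    field_simp

/-- `R`, modulo `π²`, has the derivative `c` at `t`. -/
def LD (R : ℝ → ℂ) (c : ℂ) (t : ℝ) : Prop :=
  HasDerivAt (fun s => ee (R s)) (ee (R t) * (2 * I / Real.pi * c)) t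

theorem LD.of_deriv {R : ℝ → ℂ} {c : ℂ} {t : ℝ} (h : HasDerivAt R c t) : LD R c t :=
  (h.const_mul (2 * I / (Real.pi : ℂ))).cexp

theorem LD.congr {R S : ℝ → ℂ} {c : ℂ} {t : ℝ} (h : LD R c t) (he : ∀ᶠ s in 𝓝 t, Cg (S s) (R s)) :
    LD S c t := by
  have e : (fun s => ee (S s)) =ᶠ[𝓝 t] fun s => ee (R s) := he.mono fun s hs => ee_iff.2 hs
  unfold LD
  rw [show ee (S t) = ee (R t) from ee_iff.2 he.self_of_nhds]
  exact HasDerivAt.congr_of_eventuallyEq h e

theorem LD.add {R S : ℝ → ℂ} {c d : ℂ} {t : ℝ} (h : LD R c t) (h' : LD S d t) :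
    LD (fun s => R s + S s) (c + d) t := by
  unfold LD at *
  simp only [ee_add]
  refine (h.mul h').congr_deriv ?_
  ring

theorem LD.neg {R : ℝ → ℂ} {c : ℂ} {t : ℝ} (h : LD R c t) : LD (fun s => -R s) (-c) t := by
  unfold LD at *
  simp only [ee_neg]
  refine (h.inv (ee_ne _)).congr_deriv ?_
  have := ee_ne (R t)
  field_simp

theorem LD.sub {R S : ℝ → ℂ} {c d : ℂ} {t : ℝ} (h : LD R c t) (h' : LD S d t) :
    LD (fun s => R s - S s) (c - d) t := by
  simp only [sub_eq_add_neg]
  exact h.add h'.neg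

theorem LD.cast {R : ℝ → ℂ} {c d : ℂ} {t : ℝ} (h : LD R c t) (e : c = d) : LD R d t := e ▸ h

/-- A function with derivative `0` modulo `π²` is constant modulo `π²`. -/
theorem LD_const {R : ℝ → ℂ} (h : ∀ t ∈ Set.Icc (0 : ℝ) 1, LD R 0 t) : Cg (R 1) (R 0) := by
  have h' : ∀ t ∈ Set.Icc (0 : ℝ) 1, HasDerivAt (fun s => ee (R s)) 0 t := by
    intro t ht
    have := h t ht
    unfold LD at this
    rwa [mul_zero, mul_zero] at this
  have hc : ContinuousOn (fun s => ee (R s)) (Set.Icc 0 1) :=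
    fun t ht => (h' t ht).continuousAt.continuousWithinAt
  exact ee_iff.1 (constant_of_has_deriv_right_zero hc
    (fun t ht => (h' t ⟨ht.1, ht.2.le⟩).hasDerivWithinAt) 1 ⟨zero_le_one, le_rfl⟩)

/-! ### The Rogers dilogarithm -/

private theorem log_of_exp {L z : ℂ} (h : exp L = z) : ∃ p : ℤ, log z = L + p * (2 * Real.pi * I) := by
  have hz : z ≠ 0 := by rw [← h]; exact exp_ne_zero _
  exact Complex.exp_eq_exp_iff_exists_int.1 (by rw [exp_log hz, h])

/-- The Rogers dilogarithm modulo `π²`, first form. -/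
theorem RR_one {z L0 L1 : ℂ} (h0 : exp L0 = z) (h1 : exp (-L1) = 1 - z) (n0 n1 : ℤ) :
    Cg (Hyp.RR z (L0 + n0 * (Real.pi * I)) (L1 + n1 * (Real.pi * I)))
      (dilog z + L0 * log (1 - z) + L0 * L1 / 2 - (Real.pi : ℂ) ^ 2 / 6 +
        Real.pi * I / 2 * (n1 * L0 - n0 * L1)) := by
  obtain ⟨p, hp⟩ := log_of_exp h0
  obtain ⟨q, hq⟩ := log_of_exp h1
  refine ⟨-2 * p * q - n0 * q - n1 * p, ?_⟩
  unfold Hyp.RR
  rw [hp, hq]
  push_cast
  linear_combination ((2 * (p : ℂ) * q + n0 * q + n1 * p) * (Real.pi : ℂ) ^ 2) * I_sq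

private theorem compl {z : ℂ} (h0 : z ∈ slitPlane) (h1 : 1 - z ≠ 0) : dilog z + dilog (1 - z) =
    (Real.pi : ℂ) ^ 2 / 6 - log z * log (1 - z) := by
  by_cases h : 1 - z ∈ slitPlane
  · exact dilog_compl z h0 h
  · rw [mem_slitPlane_iff] at h
    push Not at h
    obtain ⟨h2, h3⟩ := h
    have him : z.im = 0 := by
      rw [sub_im, one_im] at h3
      linarith
    have hz : z = (z.re : ℂ) := by
      apply Complex.ext
      · simp
      · simp [him]
    have hre : 1 < z.re := by
      rw [sub_re, one_re] at h2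
      refine lt_of_le_of_ne (by linarith) ?_
      intro h4
      apply h1
      rw [hz, ← h4]
      simp
    rw [hz]
    exact dilog_compl_real hre

/-- The Rogers dilogarithm modulo `π²`, second form. -/
theorem RR_two {z L0 L1 : ℂ} (h0 : exp L0 = z) (h1 : exp (-L1) = 1 - z) (hz : z ∈ slitPlane)
    (n0 n1 : ℤ) :
    Cg (Hyp.RR z (L0 + n0 * (Real.pi * I)) (L1 + n1 * (Real.pi * I)))
      (-dilog (1 - z) + L1 * log z - L0 * L1 / 2 + Real.pi * I / 2 * (n1 * L0 - n0 * L1)) := by
  obtain ⟨p, hp⟩ := log_of_exp h0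
  obtain ⟨q, hq⟩ := log_of_exp h1
  have hc := compl hz (by rw [← h1]; exact exp_ne_zero _)
  refine ⟨2 * p * q - n0 * q - n1 * p, ?_⟩
  unfold Hyp.RR
  rw [hp, hq] at hc
  rw [hp, hq]
  push_cast
  linear_combination hc + ((-2 * (p : ℂ) * q + n0 * q + n1 * p) * (Real.pi : ℂ) ^ 2) * I_sq

/-- The derivative of the relation of the two logarithms. -/
private theorem rel_deriv {L0 L1 : ℝ → ℂ} {L0' L1' : ℂ} {t : ℝ} (h0 : HasDerivAt L0 L0' t)
    (h1 : HasDerivAt L1 L1' t) (he : ∀ᶠ s in 𝓝 t, exp (L0 s) + exp (-L1 s) = 1) :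
    exp (L0 t) * L0' = (1 - exp (L0 t)) * L1' := by
  have k1 := h0.cexp.add h1.neg.cexp
  have k2 : HasDerivAt (fun s => exp (L0 s) + exp (-L1 s)) 0 t :=
    (hasDerivAt_const t (1 : ℂ)).congr_of_eventuallyEq he
  have k3 := k1.unique k2
  have k4 : exp (-L1 t) = 1 - exp (L0 t) := by linear_combination he.self_of_nhds
  have k5 : exp ((-L1) t) = exp (-L1 t) := rfl
  rw [k5, k4] at k3
  linear_combination k3

/-- **The Rogers dilogarithm along a path.** -/
theorem RR_path {L0 L1 : ℝ → ℂ} {L0' L1' : ℂ} {t : ℝ} (h0 : HasDerivAt L0 L0' t)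
    (h1 : HasDerivAt L1 L1' t) (he : ∀ᶠ s in 𝓝 t, exp (L0 s) + exp (-L1 s) = 1) (n0 n1 : ℤ) :
    LD (fun s => Hyp.RR (exp (L0 s)) (L0 s + n0 * (Real.pi * I)) (L1 s + n1 * (Real.pi * I)))
      (((L1 t + n1 * (Real.pi * I)) * L0' - (L0 t + n0 * (Real.pi * I)) * L1') / 2) t := by
  have hr := rel_deriv h0 h1 he
  have hz : exp (L0 t) ≠ 0 := exp_ne_zero _
  have hE := h0.cexp
  have hz1 : 1 - exp (L0 t) ≠ 0 := by
    have := he.self_of_nhds
    rw [show 1 - exp (L0 t) = exp (-L1 t) by linear_combination -this]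
    exact exp_ne_zero _
  have dP : HasDerivAt (fun s => (Real.pi : ℂ) * I / 2 * (n1 * L0 s - n0 * L1 s))
      (Real.pi * I / 2 * (n1 * L0' - n0 * L1')) t :=
    ((h0.const_mul (n1 : ℂ)).sub (h1.const_mul (n0 : ℂ))).const_mul _
  have hr' : exp (L0 t) * L0' / (1 - exp (L0 t)) = L1' := by
    rw [hr, mul_div_cancel_left₀ _ hz1]
  by_cases hs : 1 - exp (L0 t) ∈ slitPlane
  · -- the first form
    have d1 := (dilog_hasDerivAt (exp (L0 t)) hz hs).comp_of_eq t hE rfl
    have d2 : HasDerivAt (fun s => log (1 - exp (L0 s))) (-(exp (L0 t) * L0') / (1 - exp (L0 t))) t :=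
      (hE.const_sub 1).clog_real hs
    have d3 := (((d1.add (h0.mul d2)).add ((h0.mul h1).div_const 2)).sub_const
      ((Real.pi : ℂ) ^ 2 / 6)).add dP
    refine ((LD.of_deriv d3).congr ?_).cast ?_
    · filter_upwards [he] with s hs
      exact RR_one rfl (by linear_combination hs) n0 n1
    · rw [neg_div, hr']
      field_simp
      ring
  · -- the second form
    have hsl : exp (L0 t) ∈ slitPlane := by
      rw [mem_slitPlane_iff] at hs ⊢
      push Not at hs
      left
      have := hs.1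
      rw [sub_re, one_re] at this
      linarith
    have hev : ∀ᶠ s in 𝓝 t, exp (L0 s) ∈ slitPlane :=
      hE.continuousAt.eventually_mem (isOpen_slitPlane.mem_nhds hsl)
    have d1 := (dilog_hasDerivAt (1 - exp (L0 t)) hz1 (by rw [sub_sub_cancel]; exact hsl)).comp_of_eq t
      (hE.const_sub 1) rfl
    have d2 : HasDerivAt (fun s => log (exp (L0 s))) (exp (L0 t) * L0' / exp (L0 t)) t :=
      hE.clog_real hsl
    have d3 := ((d1.neg.add (h1.mul d2)).sub ((h0.mul h1).div_const 2)).add dP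
    refine ((LD.of_deriv d3).congr ?_).cast ?_
    · filter_upwards [he, hev] with s hs hs'
      exact RR_two rfl (by linear_combination hs) hs' n0 n1
    · rw [sub_sub_cancel, mul_div_cancel_left₀ _ hz]
      have e : -(log (exp (L0 t)) / (1 - exp (L0 t))) * -(exp (L0 t) * L0') =
          log (exp (L0 t)) * (exp (L0 t) * L0' / (1 - exp (L0 t))) := by ring
      rw [e, hr']
      ring

/-! ### The value of a flattened tetrahedron -/

/-- The logarithms of the shape parameters of a tetrahedron. -/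
structure Lgr (L : Fin 3 → ℂ) : Prop where
  e : exp (L 0) + exp (-L 1) = 1
  s : L 0 + L 1 + L 2 = Real.pi * I

theorem Lgr.rot {L : Fin 3 → ℂ} (h : Lgr L) (a : Fin 3) : exp (L a) + exp (-L (a + 1)) = 1 := by
  have e := h.e
  have hs := h.s
  have e2 : L 2 = Real.pi * I - L 0 - L 1 := by linear_combination hs
  have k0 := exp_ne_zero (L 0)
  have k1 := exp_ne_zero (L 1)
  have x1 : exp (L 0) = 1 - (exp (L 1))⁻¹ := by
    rw [← exp_neg]
    linear_combination e
  fin_cases a
  · exact e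
  · show exp (L 1) + exp (-L 2) = 1
    rw [e2, show -((Real.pi : ℂ) * I - L 0 - L 1) = L 0 + L 1 - Real.pi * I by ring, exp_sub, exp_add,
      exp_pi_mul_I, x1]
    field_simp
    ring
  · show exp (L 2) + exp (-L 0) = 1
    rw [e2, exp_sub, exp_sub, exp_pi_mul_I, exp_neg]
    have x2 : exp (L 1) * (1 - exp (L 0)) = 1 := by
      rw [x1]
      field_simp
      ring
    have x3 : (exp (L 1))⁻¹ = 1 - exp (L 0) := by
      field_simp
      linear_combination -x2
    rw [div_div, ← div_div, div_eq_mul_inv (-1 / exp (L 0)), x3]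
    field_simp
    ring

theorem Lgr.shp {L : Fin 3 → ℂ} (h : Lgr L) (c : Fin 3) : Hyp.shp (exp (L 0)) c = exp (L c) := by
  fin_cases c
  · rfl
  · show 1 / (1 - exp (L 0)) = exp (L 1)
    have : 1 - exp (L 0) = exp (-L 1) := by linear_combination -h.e
    rw [this, exp_neg, one_div, inv_inv]
  · show 1 - 1 / exp (L 0) = exp (L 2)
    have := h.rot 2
    have e3 : (2 + 1 : Fin 3) = 0 := rfl
    rw [e3, exp_neg] at this
    rw [one_div]
    linear_combination -this

/-- **The value of a flattened tetrahedron along a path**, for every ordering of the vertices. -/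
theorem tetR_path {L : ℝ → Fin 3 → ℂ} {L' : Fin 3 → ℂ} {t : ℝ}
    (hd : ∀ c, HasDerivAt (fun s => L s c) (L' c) t) (he : ∀ᶠ s in 𝓝 t, Lgr (L s)) (n : Fin 3 → ℤ)
    (hn : n 0 + n 1 + n 2 = -1) {a b : Fin 3} (hab : a ≠ b) :
    LD (fun s => Hyp.tetR (exp (L s 0)) (fun c => L s c + n c * (Real.pi * I)) a b)
      (((L t 1 + n 1 * (Real.pi * I)) * L' 0 - (L t 0 + n 0 * (Real.pi * I)) * L' 1) / 2) t := by
  have hs := he.self_of_nhds.s
  have hn2 : (n 2 : ℂ) = -1 - n 0 - n 1 := by
    have : n 2 = -1 - n 0 - n 1 := by linarith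
    rw [this]
    push_cast
    ring
  have hsd : L' 2 = -L' 0 - L' 1 := by
    have k1 := ((hd 0).add (hd 1)).add (hd 2)
    have k2 : HasDerivAt (fun s => L s 0 + L s 1 + L s 2) 0 t :=
      (hasDerivAt_const t ((Real.pi : ℂ) * I)).congr_of_eventuallyEq (he.mono fun s hs => hs.s)
    have k3 := k1.unique k2
    linear_combination k3
  have hs2 : L t 2 = Real.pi * I - L t 0 - L t 1 := by linear_combination hs
  -- the positive orderings
  have pos : ∀ a : Fin 3,
      LD (fun s => Hyp.tetR (exp (L s 0)) (fun c => L s c + n c * (Real.pi * I)) a (a + 1))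
        (((L t (a + 1) + n (a + 1) * (Real.pi * I)) * L' a -
          (L t a + n a * (Real.pi * I)) * L' (a + 1)) / 2) t := by
    intro a
    refine (RR_path (hd a) (hd (a + 1)) (he.mono fun s hs => hs.rot a) (n a) (n (a + 1))).congr ?_
    filter_upwards [he] with s hs
    unfold Hyp.tetR
    rw [if_pos rfl, hs.shp a]
    exact Cg.refl _
  -- the negative orderings
  have neg : ∀ a : Fin 3,
      LD (fun s => Hyp.tetR (exp (L s 0)) (fun c => L s c + n c * (Real.pi * I)) (a + 1) a)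
        (-(((L t a + n a * (Real.pi * I)) * L' (a + 1) -
          (L t (a + 1) + n (a + 1) * (Real.pi * I)) * L' a) / 2)) t := by
    intro a
    have h1 := (RR_path (hd (a + 1)).neg (hd a).neg (he.mono fun s hs => by
      have := hs.rot a
      show exp (-L s (a + 1)) + exp (-(-L s a)) = 1
      rw [neg_neg, add_comm]
      exact this) (-n (a + 1)) (-n a)).neg
    refine (h1.congr ?_).cast ?_
    · filter_upwards [he] with s hs
      unfold Hyp.tetR
      have hne : ¬ a = a + 1 + 1 := by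
        intro h
        revert h
        fin_cases a <;> decide
      rw [if_neg hne, hs.shp (a + 1)]
      apply Cg.of_eq
      show -Hyp.RR (1 / exp (L s (a + 1))) (-(L s (a + 1) + n (a + 1) * (Real.pi * I)))
        (-(L s a + n a * (Real.pi * I))) = -Hyp.RR (exp (-L s (a + 1)))
        (-L s (a + 1) + ((-n (a + 1) : ℤ) : ℂ) * (Real.pi * I))
        (-L s a + ((-n a : ℤ) : ℂ) * (Real.pi * I))
      rw [one_div, ← exp_neg]
      congr 2
      · push_cast
        ring
      · push_cast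
        ring
    · show -((((-L t a) + ((-n a : ℤ) : ℂ) * (Real.pi * I)) * (-L' (a + 1)) -
        ((-L t (a + 1)) + ((-n (a + 1) : ℤ) : ℂ) * (Real.pi * I)) * (-L' a)) / 2) = _
      push_cast
      ring
  have key : ∀ a : Fin 3, ((L t (a + 1) + n (a + 1) * (Real.pi * I)) * L' a -
      (L t a + n a * (Real.pi * I)) * L' (a + 1)) / 2 =
      ((L t 1 + n 1 * (Real.pi * I)) * L' 0 - (L t 0 + n 0 * (Real.pi * I)) * L' 1) / 2 := by
    intro a
    fin_cases a
    · rfl
    · show ((L t 2 + n 2 * (Real.pi * I)) * L' 1 - (L t 1 + n 1 * (Real.pi * I)) * L' 2) / 2 = _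
      rw [hs2, hsd, hn2]
      ring
    · show ((L t 0 + n 0 * (Real.pi * I)) * L' 2 - (L t 2 + n 2 * (Real.pi * I)) * L' 0) / 2 = _
      rw [hs2, hsd, hn2]
      ring
  have hcase : b = a + 1 ∨ a = b + 1 := by
    revert hab
    fin_cases a <;> fin_cases b <;> decide
  rcases hcase with rfl | rfl
  · exact (pos a).cast (key a)
  · refine (neg b).cast ?_
    rw [← key b]
    ring

end Pool.Agent.AT.CV
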