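import Pool.Agent.AT.CV.BlockR
import Pool.Agent.H63.VC7.LocG
import Pool.Agent.H63.VC7.SumC
import Pool.Agent.H63.VC7.WuC

/-!
# Project AT, complex volume: the sum over the blocks modulo `π²`
-/

namespace Pool.Agent.AT.CV

open Complex Pool.Agent.H63.VC3 Pool.Agent.H63.VC5 Pool.Agent.H63.VC7 Pool.Agent.S3 Pool.Agent.S3.G

variable {m p : ℕ}

/-- The sum of the values of the blocks. -/
theorem sum_R {s t : Fin m → Fin p} {a : Fin p → ℤ} {y : Fin m → ℂ} {v : Fin p → ℂ}
    (hc : G.CritT s t a y v) (n : Fin p → ℤ) (al be : Fin m → ℤ)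
    (hn : ∀ i, (∑ j, ((if s j = i then 2 * al j + n (t j) + 1 else 0) +
        (if t j = i then -(2 * be j + n (s j) + 1) else 0))) + a i * n i = 2)
    (f f' : Fin m → Bool)
    (hf : ∀ i, 2 ∣ (∑ j, ((if s j = i ∧ f j = true then (1 : ℤ) else 0) +
        (if t j = i ∧ f' j = true then 1 else 0))) - a i) :
    Cg (∑ j, Hyp.blockR (shx (y j) (v (s j)) (v (t j))) (shy (y j) (v (s j)) (v (t j)))
        (FX (y j) (v (s j)) (v (t j)) (n (s j)) (n (t j)) (al j) (be j))
        (FY (y j) (v (s j)) (v (t j)) (n (s j)) (n (t j)) (al j) (be j)) (f j) (f' j))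
      (2 * Real.pi * I * G.WT s t a y v + (Real.pi : ℂ) ^ 2 / 2 * ∑ i, (a i : ℂ)) := by
  have h0 := Cg.sum Finset.univ (fun j _ =>
    block_R (Db.of_blk (hc.blk j)) (hc.blk j).ey (n (s j)) (n (t j)) (al j) (be j) (f j) (f' j))
  refine h0.trans ?_
  obtain ⟨k, hk⟩ := SumC_parity s t a n al be hn f f' hf
  have hkC := congrArg (fun z : ℤ => (z : ℂ)) hk
  push_cast at hkC
  -- the meridian terms
  have hev : ∀ i, ∑ j ∈ inc s t i, (he (y j - v i) - he (y j + v i)) =
      -(2 * Real.pi * I * (a i * v i + 1)) := by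
    intro i
    have h := hc.ev i
    linear_combination h
  have B1 : ∑ j, ((2 * Real.pi * I * v (s j) + n (s j) * (Real.pi * I)) / 2 *
        (he (y j - v (s j)) - he (y j + v (s j))) +
        (2 * Real.pi * I * v (t j) + n (t j) * (Real.pi * I)) / 2 *
        (he (y j - v (t j)) - he (y j + v (t j)))) =
      ∑ i, (Real.pi : ℂ) ^ 2 * ((2 * v i + n i) * (a i * v i + 1)) := by
    rw [← sum_inc s t hc.st (fun i j => (2 * Real.pi * I * v i + n i * (Real.pi * I)) / 2 *
        (he (y j - v i) - he (y j + v i)))]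
    refine Finset.sum_congr rfl fun i _ => ?_
    rw [← Finset.mul_sum, hev i]
    linear_combination (-(Real.pi : ℂ) ^ 2 * (2 * v i + n i) * (a i * v i + 1)) * I_sq
  have hnC : ∀ i, ∑ j, ((if s j = i then (2 * (al j : ℂ) + n (t j) + 1) else 0) +
        (if t j = i then (-(2 * (be j : ℂ) + n (s j) + 1)) else 0)) = 2 - a i * n i := by
    intro i
    have h := congrArg (fun z : ℤ => (z : ℂ)) (hn i)
    push_cast at h
    linear_combination h
  have B2 : ∑ j, ((2 * (al j : ℂ) + n (t j) + 1) * v (s j) -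
      (2 * (be j : ℂ) + n (s j) + 1) * v (t j)) = ∑ i, v i * (2 - a i * n i) := by
    have h := SumC_swap s t v (fun j => 2 * (al j : ℂ) + n (t j) + 1)
      (fun j => -(2 * (be j : ℂ) + n (s j) + 1))
    have e : ∑ j, ((2 * (al j : ℂ) + n (t j) + 1) * v (s j) -
      (2 * (be j : ℂ) + n (s j) + 1) * v (t j)) =
      ∑ j, (v (s j) * (2 * (al j : ℂ) + n (t j) + 1) +
        v (t j) * (-(2 * (be j : ℂ) + n (s j) + 1))) :=
      Finset.sum_congr rfl fun j _ => by ring
    rw [e, ← h]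
    exact Finset.sum_congr rfl fun i _ => by rw [hnC i]
  -- assembly
  refine ⟨k - ∑ i, n i, ?_⟩
  have C1 : ∑ j, (2 * Real.pi * I * (4 * ff (y j + 1 / 2) - fe (y j - v (s j)) -
        fe (y j + v (s j)) - fe (y j - v (t j)) - fe (y j + v (t j))) -
        (2 * Real.pi * I * v (s j) + n (s j) * (Real.pi * I)) / 2 *
          (he (y j - v (s j)) - he (y j + v (s j))) -
        (2 * Real.pi * I * v (t j) + n (t j) * (Real.pi * I)) / 2 *
          (he (y j - v (t j)) - he (y j + v (t j))) -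
        (Real.pi : ℂ) ^ 2 * ((2 * al j + n (t j) + 1) * v (s j) -
          (2 * be j + n (s j) + 1) * v (t j)) +
        (Real.pi : ℂ) ^ 2 / 2 * (n (s j) - n (t j) + bt1 (f j) * (1 + n (s j)) +
          bt1 (f' j) * (1 + n (t j)))) =
      2 * Real.pi * I * ∑ j, (4 * ff (y j + 1 / 2) - fe (y j - v (s j)) -
        fe (y j + v (s j)) - fe (y j - v (t j)) - fe (y j + v (t j))) -
      ∑ j, ((2 * Real.pi * I * v (s j) + n (s j) * (Real.pi * I)) / 2 *
        (he (y j - v (s j)) - he (y j + v (s j))) +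
        (2 * Real.pi * I * v (t j) + n (t j) * (Real.pi * I)) / 2 *
        (he (y j - v (t j)) - he (y j + v (t j)))) -
      (Real.pi : ℂ) ^ 2 * ∑ j, ((2 * (al j : ℂ) + n (t j) + 1) * v (s j) -
        (2 * (be j : ℂ) + n (s j) + 1) * v (t j)) +
      (Real.pi : ℂ) ^ 2 / 2 * ∑ j, ((n (s j) : ℂ) - n (t j) + bt1 (f j) * (1 + n (s j)) +
          bt1 (f' j) * (1 + n (t j))) := by
    rw [Finset.mul_sum, Finset.mul_sum, Finset.mul_sum, ← Finset.sum_sub_distrib,
      ← Finset.sum_sub_distrib, ← Finset.sum_add_distrib]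
    exact Finset.sum_congr rfl fun j _ => by ring
  have C2 : ∑ i, (Real.pi : ℂ) ^ 2 * ((2 * v i + n i) * (a i * v i + 1)) +
      (Real.pi : ℂ) ^ 2 * ∑ i, v i * (2 - a i * n i) +
      2 * Real.pi * I * ∑ i, 2 * Real.pi * I * ((a i : ℂ) / 2 * v i ^ 2 + v i) =
      (Real.pi : ℂ) ^ 2 * ∑ i, (n i : ℂ) := by
    rw [Finset.mul_sum, Finset.mul_sum, Finset.mul_sum, ← Finset.sum_add_distrib,
      ← Finset.sum_add_distrib]
    refine Finset.sum_congr rfl fun i _ => ?_
    linear_combination (4 * (Real.pi : ℂ) ^ 2 * (a i / 2 * v i ^ 2 + v i)) * I_sq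
  rw [C1, B1, B2]
  unfold G.WT
  push_cast
  linear_combination (Real.pi : ℂ) ^ 2 / 2 * hkC - C2

end Pool.Agent.AT.CV
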